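import Pool.Agent.Helper8.HX.Defs

/-!
The derivative of a smooth fibre map at the curvature matrix is a symmetric section.
-/

set_option autoImplicit false

open scoped Manifold ContDiff Topology
open MeasureTheory

namespace Pool.Agent.Helper78.HX

open Pool.Agent.Helper8.DC Pool.Agent.Helper8.DA Pool.Agent.Helper8.DE Pool.Agent.Helper8.HX

noncomputable section

/-- V4a: the set of positive definite matrices is open. -/
theorem isOpen_posM : IsOpen {M : Fin 3 → Fin 3 → ℝ | PosM M} := by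
  rw [isOpen_iff_mem_nhds]
  intro M hM
  have hcont : Continuous fun z : (Fin 3 → Fin 3 → ℝ) × R3 =>
      ∑ a, ∑ b, z.2 a * z.1 a b * z.2 b := by fun_prop
  have hK : IsCompact (Metric.sphere (0 : R3) 1) := isCompact_sphere 0 1
  have h1 : ∀ᶠ N : Fin 3 → Fin 3 → ℝ in 𝓝 M, ∀ v ∈ Metric.sphere (0 : R3) 1,
      0 < ∑ a, ∑ b, v a * N a b * v b := by
    refine hK.eventually_forall_of_forall_eventually fun v hv => ?_
    have hv0 : v ≠ 0 := by
      rintro rfl
      simp at hv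
    exact hcont.continuousAt.eventually (lt_mem_nhds (hM v hv0))
  filter_upwards [h1] with N hN v hv
  have hn : 0 < ‖v‖ := norm_pos_iff.2 hv
  have h2 := hN (‖v‖⁻¹ • v) (by
    rw [mem_sphere_zero_iff_norm, norm_smul, norm_inv, norm_norm, inv_mul_cancel₀ hn.ne'])
  have h3 : ∑ a, ∑ b, (‖v‖⁻¹ • v) a * N a b * (‖v‖⁻¹ • v) b =
      ‖v‖⁻¹ ^ 2 * ∑ a, ∑ b, v a * N a b * v b := by
    rw [Finset.mul_sum]
    refine Finset.sum_congr rfl fun a _ => ?_
    rw [Finset.mul_sum]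
    refine Finset.sum_congr rfl fun b _ => ?_
    simp only [Pi.smul_apply, smul_eq_mul]
    ring
  rw [h3] at h2
  exact pos_of_mul_pos_right h2 (by positivity)

/-- V4b: the gradient is smooth. -/
theorem grad_smooth (f : E4 → (Fin 3 → Fin 3 → ℝ) → ℝ) (U : Set E4) (hU : IsOpen U)
    (hf : ContDiffOn ℝ ∞ (fun p : E4 × (Fin 3 → Fin 3 → ℝ) => f p.1 p.2) (U ×ˢ {M | PosM M}))
    (r a : Fin 3) : ContDiffOn ℝ ∞ (fun p : E4 × (Fin 3 → Fin 3 → ℝ) => grad (f p.1) p.2 r a)
      (U ×ˢ {M | PosM M}) := by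
  have hO : IsOpen (U ×ˢ {M : Fin 3 → Fin 3 → ℝ | PosM M}) := hU.prod isOpen_posM
  have h1 : ContDiffOn ℝ ∞ (fderiv ℝ (fun p : E4 × (Fin 3 → Fin 3 → ℝ) => f p.1 p.2))
      (U ×ˢ {M | PosM M}) := hf.fderiv_of_isOpen hO (by simp)
  have h2 : ∀ p ∈ U ×ˢ {M : Fin 3 → Fin 3 → ℝ | PosM M}, ∀ H : Fin 3 → Fin 3 → ℝ,
      fderiv ℝ (f p.1) p.2 H =
        fderiv ℝ (fun p : E4 × (Fin 3 → Fin 3 → ℝ) => f p.1 p.2) p ((0 : E4), H) := by
    intro p hp H
    have h3 : HasFDerivAt (fun q : E4 × (Fin 3 → Fin 3 → ℝ) => f q.1 q.2)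
        (fderiv ℝ (fun p : E4 × (Fin 3 → Fin 3 → ℝ) => f p.1 p.2) p) (p.1, p.2) :=
      ((hf.contDiffAt (hO.mem_nhds hp)).differentiableAt (by simp)).hasFDerivAt
    have h4 := h3.comp p.2 (hasFDerivAt_prodMk_right p.1 p.2)
    have h5 : fderiv ℝ (f p.1) p.2 = _ := h4.fderiv
    rw [h5]
    rfl
  have h3 : ∀ H : Fin 3 → Fin 3 → ℝ, ContDiffOn ℝ ∞
      (fun p : E4 × (Fin 3 → Fin 3 → ℝ) => fderiv ℝ (f p.1) p.2 H) (U ×ˢ {M | PosM M}) :=
    fun H => (h1.clm_apply contDiffOn_const).congr fun p hp => h2 p hp H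
  unfold grad
  exact ((h3 _).add (h3 _)).div_const 2

/-- the linear map `M ↦ c g M gᵀ` -/
def conj (c : ℝ) (g : Matrix (Fin 3) (Fin 3) ℝ) : (Fin 3 → Fin 3 → ℝ) →L[ℝ] (Fin 3 → Fin 3 → ℝ) :=
  LinearMap.toContinuousLinearMap
    { toFun := fun M => (c • (g * (Matrix.of M) * g.transpose) : Matrix (Fin 3) (Fin 3) ℝ)
      map_add' := fun M N => by
        show c • (g * (Matrix.of M + Matrix.of N) * g.transpose) =
          c • (g * Matrix.of M * g.transpose) + c • (g * Matrix.of N * g.transpose)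
        rw [Matrix.mul_add, Matrix.add_mul, smul_add]
      map_smul' := fun t M => by
        show c • (g * (t • Matrix.of M) * g.transpose) =
          t • (c • (g * Matrix.of M * g.transpose))
        rw [Matrix.mul_smul, Matrix.smul_mul, smul_comm] }

theorem conj_apply (c : ℝ) (g : Matrix (Fin 3) (Fin 3) ℝ) (M : Fin 3 → Fin 3 → ℝ) :
    conj c g M = (c • (g * (Matrix.of M) * g.transpose) : Matrix (Fin 3) (Fin 3) ℝ) := rfl

theorem posM_conj (c : ℝ) (hc : 0 < c) (g : Matrix (Fin 3) (Fin 3) ℝ)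
    (hg : g ∈ Matrix.specialOrthogonalGroup (Fin 3) ℝ) (M : Matrix (Fin 3) (Fin 3) ℝ)
    (hM : PosM M) : PosM (c • (g * M * g.transpose)) := by
  intro v hv
  have hgg : g * g.transpose = 1 := by
    have h := (Matrix.mem_orthogonalGroup_iff (Fin 3) ℝ).1
      (Matrix.mem_specialOrthogonalGroup_iff.1 hg).1
    exact h
  have hw : g.transpose.mulVec v ≠ 0 := by
    intro h
    have h1 : g.mulVec (g.transpose.mulVec v) = v := by
      rw [Matrix.mulVec_mulVec, hgg, Matrix.one_mulVec]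
    rw [h, Matrix.mulVec_zero] at h1
    exact hv h1.symm
  have h2 := hM _ hw
  have h3 : ∑ a, ∑ b, v a * (c • (g * M * g.transpose)) a b * v b =
      c * ∑ a, ∑ b, g.transpose.mulVec v a * M a b * g.transpose.mulVec v b := by
    simp only [Matrix.smul_apply, Matrix.mul_apply, Matrix.transpose_apply, Matrix.mulVec,
      dotProduct, smul_eq_mul, Fin.sum_univ_three]
    ring
  rw [h3]
  exact mul_pos hc h2

/-- the values of the inverse of `conj` on the basis -/
theorem conj_basis (c : ℝ) (g : Matrix (Fin 3) (Fin 3) ℝ)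
    (hg : g ∈ Matrix.specialOrthogonalGroup (Fin 3) ℝ) (r a : Fin 3) :
    conj c g (∑ t, ∑ b, (g r t * g a b) • Pi.single t (Pi.single b (1 : ℝ))) =
      c • (Pi.single r (Pi.single a (1 : ℝ)) : Fin 3 → Fin 3 → ℝ) := by
  have hgg' : g * g.transpose = 1 := by
    have h := (Matrix.mem_orthogonalGroup_iff (Fin 3) ℝ).1
      (Matrix.mem_specialOrthogonalGroup_iff.1 hg).1
    exact h
  set H : Fin 3 → Fin 3 → ℝ := ∑ t, ∑ b, (g r t * g a b) • Pi.single t (Pi.single b (1 : ℝ))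
    with hH
  have hHapp : ∀ t b, H t b = g r t * g a b := by
    intro t b
    fin_cases t <;> fin_cases b <;> simp [hH, Fin.sum_univ_three]
  funext i j
  rw [conj_apply]
  have h7 : (g * Matrix.of H * g.transpose) i j =
      (g * g.transpose) i r * (g * g.transpose) a j := by
    simp only [Matrix.mul_apply, Matrix.transpose_apply, Matrix.of_apply, hHapp,
      Fin.sum_univ_three]
    ring
  rw [Matrix.smul_apply, h7, hgg', Pi.smul_apply, Pi.smul_apply]
  congr 1
  fin_cases i <;> fin_cases r <;> fin_cases a <;> fin_cases j <;>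
    simp

/-- the values of a functional on the basis -/
theorem basis_value (d : ℝ) (hd : 0 < d) (g : Matrix (Fin 3) (Fin 3) ℝ)
    (hg : g ∈ Matrix.specialOrthogonalGroup (Fin 3) ℝ)
    (L₁ L₂ : (Fin 3 → Fin 3 → ℝ) →L[ℝ] ℝ) (h4 : L₂ = d • (L₁.comp (conj d⁻¹ g))) (r a : Fin 3) :
    L₁ (Pi.single r (Pi.single a 1)) =
      ∑ t, ∑ b, g r t * g a b * L₂ (Pi.single t (Pi.single b 1)) := by
  have h8 : L₂ (∑ t, ∑ b, (g r t * g a b) • Pi.single t (Pi.single b (1 : ℝ))) =
      ∑ t, ∑ b, g r t * g a b * L₂ (Pi.single t (Pi.single b 1)) := by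
    rw [map_sum]
    refine Finset.sum_congr rfl fun t _ => ?_
    rw [map_sum]
    refine Finset.sum_congr rfl fun b _ => ?_
    rw [map_smul, smul_eq_mul]
  rw [← h8, h4, ContinuousLinearMap.smul_apply, ContinuousLinearMap.comp_apply,
    conj_basis _ _ hg, map_smul, smul_smul, mul_inv_cancel₀ hd.ne', one_smul]

/-- V4c: if `f₂ M = d f₁ (d⁻¹ g M gᵀ)` then `∇f₁ (d⁻¹ g M gᵀ) = g (∇f₂ M) gᵀ`. -/
theorem grad_equiv (f₁ f₂ : (Fin 3 → Fin 3 → ℝ) → ℝ) (hf₁ : DifferentiableOn ℝ f₁ {M | PosM M})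
    (d : ℝ) (hd : 0 < d) (g : Matrix (Fin 3) (Fin 3) ℝ)
    (hg : g ∈ Matrix.specialOrthogonalGroup (Fin 3) ℝ)
    (h : ∀ M : Matrix (Fin 3) (Fin 3) ℝ, PosM M → f₂ M = d * f₁ (d⁻¹ • (g * M * g.transpose)))
    (M : Matrix (Fin 3) (Fin 3) ℝ) (hM : PosM M) (r a : Fin 3) :
    grad f₁ (d⁻¹ • (g * M * g.transpose)) r a =
      (g * Matrix.of (grad f₂ M) * g.transpose) r a := by
  set M' : Fin 3 → Fin 3 → ℝ := M with hM'
  have hposc : PosM (conj d⁻¹ g M') := posM_conj d⁻¹ (inv_pos.2 hd) g hg M hM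
  have h1 : HasFDerivAt f₁ (fderiv ℝ f₁ (conj d⁻¹ g M')) (conj d⁻¹ g M') :=
    (hf₁.differentiableAt (isOpen_posM.mem_nhds hposc)).hasFDerivAt
  have h2 : HasFDerivAt (fun N : Fin 3 → Fin 3 → ℝ => d * f₁ (conj d⁻¹ g N))
      (d • ((fderiv ℝ f₁ (conj d⁻¹ g M')).comp (conj d⁻¹ g))) M' :=
    (h1.comp M' (conj d⁻¹ g).hasFDerivAt).const_mul d
  have h3 : f₂ =ᶠ[𝓝 M'] fun N : Fin 3 → Fin 3 → ℝ => d * f₁ (conj d⁻¹ g N) := by
    filter_upwards [isOpen_posM.mem_nhds (show M' ∈ {M : Fin 3 → Fin 3 → ℝ | PosM M} from hM)]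
      with N hN
    exact h N hN
  have h4 : fderiv ℝ f₂ M' = d • ((fderiv ℝ f₁ (conj d⁻¹ g M')).comp (conj d⁻¹ g)) :=
    (h2.congr_of_eventuallyEq h3).fderiv
  have h5 := basis_value d hd g hg _ _ h4
  have h6 : grad f₁ (d⁻¹ • (g * M * g.transpose)) r a =
      (fderiv ℝ f₁ (conj d⁻¹ g M') (Pi.single r (Pi.single a 1)) +
        fderiv ℝ f₁ (conj d⁻¹ g M') (Pi.single a (Pi.single r 1))) / 2 := rfl
  rw [h6, h5, h5]
  have h7 : ∀ t b : Fin 3, grad f₂ M' t b = (fderiv ℝ f₂ M' (Pi.single t (Pi.single b 1)) +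
      fderiv ℝ f₂ M' (Pi.single b (Pi.single t 1))) / 2 := fun t b => rfl
  simp only [Matrix.mul_apply, Matrix.transpose_apply, Matrix.of_apply, Fin.sum_univ_three, h7]
  ring

/-- the curvature matrix is smooth -/
theorem gram_cd {U : Set E4} (hU : IsOpen U) {A : E4 → Fin 4 → R3} (hA : ContDiffOn ℝ ∞ A U) :
    ContDiffOn ℝ ∞ (fun y => (fun a b => gram (curv A y) a b : Fin 3 → Fin 3 → ℝ)) U := by
  refine contDiffOn_pi.2 fun a => contDiffOn_pi.2 fun b => ?_
  unfold gram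
  exact sm_wedge (fun l m => contDiffOn_pi.mp (sm_curv hU hA l m) a)
    (fun l m => contDiffOn_pi.mp (sm_curv hU hA l m) b)

variable {X : Type} [TopologicalSpace X] [ChartedSpace E4 X] [IsManifold (𝓡 4) ∞ X]

/-- the curvature matrix in two charts -/
theorem gram_tr (P : Bundle X) (i j : P.ι) (y : E4) (hy : y ∈ P.ov i j) :
    P.g i j y * gram (curv (P.A j) y) * (P.g i j y).transpose =
      (jac P i j y).det • gram (curv (P.A i) (P.tr i j y)) := by
  rw [← gram_rot]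
  ext a b
  have h1 : (fun l m => (P.g i j y).mulVec (curv (P.A j) y l m)) =
      fun l m => ∑ k, ∑ p, (jac P i j y k l * jac P i j y p m) •
        curv (P.A i) (P.tr i j y) k p := by
    funext l m
    exact (curv_tr P i j y hy l m).symm
  rw [h1]
  have h2 : ∀ c, cmp (fun l m => ∑ k, ∑ p, (jac P i j y k l * jac P i j y p m) •
      curv (P.A i) (P.tr i j y) k p) c =
      fun l m => ∑ k, ∑ p, jac P i j y k l * jac P i j y p m *
        cmp (curv (P.A i) (P.tr i j y)) c k p := by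
    intro c
    funext l m
    simp [Pool.Agent.Helper8.DC.cmp, Finset.sum_apply]
  have hs : ∀ c, ∀ l m, cmp (curv (P.A i) (P.tr i j y)) c l m =
      -cmp (curv (P.A i) (P.tr i j y)) c m l := by
    intro c l m
    have := congrFun (skew_curv (P.A i) (P.tr i j y) l m) c
    simpa [Pool.Agent.Helper8.DC.cmp] using this
  simp only [gram, Matrix.smul_apply, smul_eq_mul]
  rw [h2, h2]
  exact wedge_pull (jac P i j y) _ _ (hs a) (hs b)

/-- V5: `∂f/∂M` is a symmetric section. -/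
theorem exists_psi (P : Bundle X) (hP : P.PositiveDefinite) (f : Dens P) :
    ∃ ψ : Sect P (adj P), IsSymm P ψ ∧ ∀ i y, ψ.s i y = psi P f i y := by
  have hpos : ∀ i, ∀ y ∈ (P.c i).target, PosM (gram (curv (P.A i) y)) := fun i y hy v hv =>
    gram_pos _ (skew_curv _ _) (hP i y hy) v hv
  refine ⟨⟨fun i y => psi P f i y, ?_, ?_⟩, ?_, fun i y => rfl⟩
  · intro i
    have h3 := gram_cd (P.c i).open_target (P.A_smooth i)
    refine contDiffOn_pi.2 fun r => contDiffOn_pi.2 fun a => ?_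
    have h4 := grad_smooth (f.f i) (P.c i).target (P.c i).open_target (f.smooth i) r a
    exact h4.comp (contDiffOn_id.prodMk h3) fun y hy => ⟨hy, hpos i y hy⟩
  · intro i j y hy r
    have hdet := det_pos P hP i j y hy
    have h3 := gram_tr P i j y hy
    have h4 : (gram (curv (P.A i) (P.tr i j y)) : Fin 3 → Fin 3 → ℝ) =
        ((jac P i j y).det)⁻¹ • (P.g i j y * gram (curv (P.A j) y) * (P.g i j y).transpose) := by
      rw [h3, smul_smul, inv_mul_cancel₀ hdet.ne', one_smul]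
    have h5 : DifferentiableOn ℝ (f.f i (P.tr i j y)) {M : Fin 3 → Fin 3 → ℝ | PosM M} := by
      have h6 : ContDiffOn ℝ ∞ (fun M : Fin 3 → Fin 3 → ℝ => f.f i (P.tr i j y) M)
          {M | PosM M} := (f.smooth i).comp (contDiffOn_const.prodMk contDiffOn_id)
        fun M hM => ⟨tr_mem P i j y hy, hM⟩
      exact h6.differentiableOn (by simp)
    funext a
    show grad (f.f i (P.tr i j y)) (gram (curv (P.A i) (P.tr i j y))) r a =
      (∑ t, P.g i j y r t • (P.g i j y).mulVec (psi P f j y t)) a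
    rw [h4, grad_equiv _ (f.f j y) h5 _ hdet _ (P.g_mem i j y hy) (f.compat i j y hy) _
      (hpos j y hy.1), Finset.sum_apply, Matrix.mul_apply]
    simp only [Matrix.mul_apply, Matrix.transpose_apply, Matrix.of_apply, Pi.smul_apply,
      smul_eq_mul, Matrix.mulVec, dotProduct, Finset.sum_mul, Finset.mul_sum]
    rw [Finset.sum_comm]
    refine Finset.sum_congr rfl fun t _ => Finset.sum_congr rfl fun b _ => ?_
    show P.g i j y r t * grad (f.f j y) (gram (curv (P.A j) y)) t b * P.g i j y a b =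
      P.g i j y r t * (P.g i j y a b * grad (f.f j y) (gram (curv (P.A j) y)) t b)
    ring
  · intro i y _ r a
    show grad (f.f i y) (gram (curv (P.A i) y)) r a = grad (f.f i y) (gram (curv (P.A i) y)) a r
    unfold grad
    rw [add_comm]

end

end Pool.Agent.Helper78.HX
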